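import Pool.Agent.Helper30_Simp.Stmts

/-!
# Module ZFIN: assembly of the zeta side (helper15)
-/

set_option autoImplicit false
set_option linter.unusedVariables false
set_option linter.unusedSectionVars false

namespace Pool.Agent.Helper30_Simp.H15

open PowerSeries Finset Pool.Agent.Helper6_Mono Pool.Agent.Helper30_Simp

section cells

variable {σ : Type} [Fintype σ]

theorem cell_unique {M I I' : Finset (σ →₀ ℕ)} {J J' : Finset σ} {u : σ → ℕ} {N N' : ℕ}
    (h : CellS M I J u N) (h' : CellS M I' J' u N') : I = I' ∧ J = J' ∧ N = N' := by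
  obtain ⟨α, hα⟩ := h.ne
  obtain ⟨α', hα'⟩ := h'.ne
  have e1 : N' ≤ N := by
    by_contra hlt
    have h1 : α ∉ I' ∨ α ∈ I' := (em _).symm
    rcases h1 with h1 | h1
    · have := h'.lt α (h.sub hα) h1
      rw [h.eq α hα] at this
      omega
    · have := h'.eq α h1
      rw [h.eq α hα] at this
      omega
  have e2 : N ≤ N' := by
    by_contra hlt
    have h1 : α' ∉ I ∨ α' ∈ I := (em _).symm
    rcases h1 with h1 | h1
    · have := h.lt α' (h'.sub hα') h1
      rw [h'.eq α' hα'] at this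
      omega
    · have := h.eq α' h1
      rw [h'.eq α' hα'] at this
      omega
  have e : N = N' := le_antisymm e2 e1
  refine ⟨?_, ?_, e⟩
  · ext β
    constructor
    · intro hβ
      by_contra hn
      have h1 := h'.lt β (h.sub hβ) hn
      rw [h.eq β hβ] at h1
      omega
    · intro hβ
      by_contra hn
      have h1 := h.lt β (h'.sub hβ) hn
      rw [h'.eq β hβ] at h1
      omega
  · ext i
    rw [← h.zero i, ← h'.zero i]

theorem cell_exists {M : Finset (σ →₀ ℕ)} (hM : M.Nonempty) (u : σ → ℕ) :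
    ∃ (I : Finset (σ →₀ ℕ)) (J : Finset σ) (N : ℕ), CellS M I J u N := by
  classical
  obtain ⟨α, hα, hmin⟩ := M.exists_min_image (fun α => dot u α) hM
  refine ⟨M.filter fun β => dot u β = dot u α, univ.filter fun i => u i = 0, dot u α, ?_⟩
  constructor
  · intro i
    simp
  · exact Finset.filter_subset _ _
  · exact ⟨α, Finset.mem_filter.2 ⟨hα, rfl⟩⟩
  · intro β hβ
    exact (Finset.mem_filter.1 hβ).2
  · intro β hβ hn
    refine lt_of_le_of_ne (hmin β hβ) fun he => hn (Finset.mem_filter.2 ⟨hβ, he.symm⟩)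

theorem cell_le {M I : Finset (σ →₀ ℕ)} {J : Finset σ} {u : σ → ℕ} {N : ℕ}
    (h : CellS M I J u N) {i : σ} (hi : i ∉ freeV I J) : u i ≤ N := by
  classical
  unfold freeV at hi
  rw [Finset.mem_filter] at hi
  have h1 : ¬ (i ∉ J ∧ ∀ α ∈ I, α i = 0) := fun h2 => hi ⟨Finset.mem_univ _, h2⟩
  rw [not_and_or, not_not] at h1
  rcases h1 with h1 | h1
  · rw [(h.zero i).2 h1]
    exact Nat.zero_le _
  · push Not at h1
    obtain ⟨α, hα, hne⟩ := h1
    rw [← h.eq α hα]
    unfold dot
    have h2 : u i * (α i : ℕ) ≤ ∑ j, u j * (α j : ℕ) :=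
      Finset.single_le_sum (f := fun j => u j * (α j : ℕ)) (fun j _ => Nat.zero_le _)
        (Finset.mem_univ i)
    refine le_trans ?_ h2
    exact Nat.le_mul_of_pos_right _ (Nat.pos_of_ne_zero hne)

/-- the product of the weights of the coordinates -/
theorem prod_cw {R : Type*} [CommRing R] (L : Rˣ) {M I : Finset (σ →₀ ℕ)} {J : Finset σ}
    {u : σ → ℕ} {N m : ℕ} (h : CellS M I J u N) (hN : N ≤ m) (hfil : DecidablePred fun i => u i ≤ m) :
    Li L ^ (∑ i, min (u i) m) * ((L : R) - 1) ^ ((freeV I J).filter fun i => u i ≤ m).card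
      = ∏ i, cw L I J m i (u i) := by
  classical
  rw [← Finset.prod_pow_eq_pow_sum]
  have e1 : ((L : R) - 1) ^ ((freeV I J).filter fun i => u i ≤ m).card
      = ∏ i, (if i ∈ (freeV I J).filter (fun i => u i ≤ m) then ((L : R) - 1) else 1) := by
    rw [Finset.prod_ite_mem, Finset.univ_inter, Finset.prod_const]
  rw [e1, ← Finset.prod_mul_distrib]
  refine Finset.prod_congr rfl fun i _ => ?_
  unfold cw
  by_cases hi : i ∈ freeV I J
  · by_cases hu : u i ≤ m
    · have hm : i ∈ (freeV I J).filter (fun i => u i ≤ m) := Finset.mem_filter.2 ⟨hi, hu⟩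
      rw [if_pos hm, if_pos hi, if_pos hu, min_eq_left hu]
      ring
    · have hm : i ∉ (freeV I J).filter (fun i => u i ≤ m) := fun h1 => hu (Finset.mem_filter.1 h1).2
      rw [if_neg hm, if_pos hi, if_neg hu, min_eq_right (not_le.1 hu).le, mul_one]
  · have hm : i ∉ (freeV I J).filter (fun i => u i ≤ m) := fun h1 => hi (Finset.mem_filter.1 h1).1
    have hu : u i ≤ m := (cell_le h hi).trans hN
    rw [if_neg hm, if_neg hi, min_eq_left hu, mul_one]

end cells

section main

variable {k : Type} [Field k] [CharZero k] {σ : Type} [Fintype σ] {R : Type 1} [CommRing R]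
  {L : Rˣ} (χ : SInv k (fun _ : σ => (0 : QZ)) L) (f : MvPolynomial σ k)

/-- the class of the torus `g = 0` of a cell -/
noncomputable def Y0 (t : Finset (σ →₀ ℕ) × Finset σ) : R := χ.χ (TT0 (V0 f t.1 t.2))

open scoped Classical in
/-- the class of the torus `g = 1` of a cell -/
noncomputable def Y1 (t : Finset (σ →₀ ℕ) × Finset σ) : R :=
  if h : ∃ (u₀ : σ → ℕ) (N₀ : ℕ), CellS f.support t.1 t.2 u₀ N₀ ∧ N₀ ≠ 0 then
    χ.χ (TT1 (V1 h.choose_spec.choose_spec.1 h.choose_spec.choose_spec.2) rfl) else 0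

open scoped Classical in
/-- the contribution of a cell to a stratum -/
noncomputable def gt (m : ℕ) (t : Finset (σ →₀ ℕ) × Finset σ) (u : σ → Fin (m + 2)) : R :=
  (if CellS f.support t.1 t.2 (fun i => (u i : ℕ)) m then
      Y1 χ f t * ∏ i, cw L t.1 t.2 m i (u i) else 0)
    + ∑ l ∈ range m, if CellS f.support t.1 t.2 (fun i => (u i : ℕ)) l then
      Y0 χ f t * Li L ^ (m - l) * ∏ i, cw L t.1 t.2 m i (u i) else 0

theorem gt_zero {m : ℕ} {t : Finset (σ →₀ ℕ) × Finset σ} {u : σ → Fin (m + 2)}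
    {I : Finset (σ →₀ ℕ)} {J : Finset σ} {N : ℕ}
    (h : CellS f.support I J (fun i => (u i : ℕ)) N) (hne : t ≠ (I, J) ∨ m < N) :
    gt χ f m t u = 0 := by
  unfold gt
  have h0 : ∀ l, l ≤ m → ¬ CellS f.support t.1 t.2 (fun i => (u i : ℕ)) l := by
    intro l hl hc
    obtain ⟨e1, e2, e3⟩ := cell_unique h hc
    rcases hne with hne | hne
    · exact hne (by
        rw [e1, e2])
    · omega
  rw [if_neg (h0 m le_rfl), zero_add]
  refine Finset.sum_eq_zero fun l hl => ?_
  rw [if_neg (h0 l (Finset.mem_range.1 hl).le)]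

theorem key (h1 : P1Stmt) (h2 : P2Stmt) (h3 : P3Stmt) (hN : NdegStmt) (hY : YttStmt)
    (hf : f ≠ 0) (hsi : Simplicial f.support) (hnd : Nondeg f) (m : ℕ) (hm : m ≠ 0)
    (hω : m • ((((1 : ℚ) / m : ℚ)) : QZ) = 0) (u : σ → Fin (m + 2)) :
    Li L ^ (m * Fintype.card σ) * χ.χ (FS f (fun i => (u i : ℕ)) m ((((1 : ℚ) / m : ℚ)) : QZ) hω)
      = ∑ t ∈ f.support.powerset ×ˢ (univ : Finset σ).powerset, gt χ f m t u := by
  classical
  obtain ⟨I, J, N, hc⟩ := cell_exists (MvPolynomial.support_nonempty.2 hf) (fun i => (u i : ℕ))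
  have hmem : (I, J) ∈ f.support.powerset ×ˢ (univ : Finset σ).powerset :=
    Finset.mem_product.2 ⟨Finset.mem_powerset.2 hc.sub, Finset.mem_powerset.2 (subset_univ _)⟩
  rw [Finset.sum_eq_single_of_mem (I, J) hmem (fun t _ ht => gt_zero χ f hc (Or.inl ht))]
  rcases lt_trichotomy m N with hlt | heq | hgt
  · rw [gt_zero χ f hc (Or.inr hlt), h1 k σ R L χ f (fun i => (u i : ℕ)) m _ hω, mul_zero]
    intro α hα
    by_cases hI : α ∈ I
    · rw [hc.eq α hI]
      exact hlt
    · exact hlt.trans (hc.lt α hα hI)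
  · subst heq
    have e0 : gt χ f m (I, J) u = Y1 χ f (I, J) * ∏ i, cw L I J m i (u i) := by
      unfold gt
      rw [if_pos hc, Finset.sum_eq_zero, add_zero]
      intro l hl
      rw [if_neg]
      intro hc'
      have := (cell_unique hc hc').2.2
      have := Finset.mem_range.1 hl
      omega
    rw [e0, h2 k σ R L χ f I J (fun i => (u i : ℕ)) m hc _ hω,
      ← prod_cw L hc le_rfl (fun i => inferInstance)]
    have hex : ∃ (u₀ : σ → ℕ) (N₀ : ℕ), CellS f.support (I, J).1 (I, J).2 u₀ N₀ ∧ N₀ ≠ 0 :=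
      ⟨_, m, hc, hm⟩
    have e1 : Y1 χ f (I, J) = χ.χ (TT1 (V1 hex.choose_spec.choose_spec.1
        hex.choose_spec.choose_spec.2) rfl) := by
      unfold Y1
      rw [dif_pos hex]
    have e2 := (hY k σ R L χ f I J (fun i => (u i : ℕ)) m m hc le_rfl).2 rfl hm
      ((((1 : ℚ) / m : ℚ)) : QZ) rfl hω _ _ hex.choose_spec.choose_spec.1
        hex.choose_spec.choose_spec.2
    rw [e1, e2]
    ring
  · have e0 : gt χ f m (I, J) u
        = Y0 χ f (I, J) * Li L ^ (m - N) * ∏ i, cw L I J m i (u i) := by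
      unfold gt
      have hno : ¬ CellS f.support (I, J).1 (I, J).2 (fun i => (u i : ℕ)) m := by
        intro hc'
        have := (cell_unique hc hc').2.2
        omega
      rw [if_neg hno, zero_add, Finset.sum_eq_single_of_mem N (Finset.mem_range.2 hgt), if_pos hc]
      intro l hl hne
      rw [if_neg]
      intro hc'
      exact hne (cell_unique hc hc').2.2.symm
    have hT := hN k σ f I J (fun i => (u i : ℕ)) N hsi hnd hc
    rw [e0, h3 k σ R L χ f I J (fun i => (u i : ℕ)) N m hc hgt hT _ hω,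
      ← prod_cw L hc hgt.le (fun i => inferInstance),
      (hY k σ R L χ f I J (fun i => (u i : ℕ)) N m hc hgt.le).1]
    unfold Y0
    rw [pow_add]
    ring

open scoped Classical in
theorem sum_gt (hT : TruncStmt) (m : ℕ) (t : Finset (σ →₀ ℕ) × Finset σ) :
    ∑ u : σ → Fin (m + 2), gt χ f m t u
      = Y1 χ f t * coneSum L f.support t.1 t.2 m m
        + Y0 χ f t * ∑ p ∈ Finset.HasAntidiagonal.antidiagonal m,
          coneSum L f.support t.1 t.2 p.1 p.1
            * (if p.2 = 0 then (0 : R) else ((L⁻¹ ^ p.2 : Rˣ) : R)) := by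
  classical
  unfold gt
  rw [Finset.sum_add_distrib]
  congr 1
  · unfold coneSum
    rw [Finset.mul_sum]
    refine Finset.sum_congr rfl fun u _ => ?_
    rw [mul_ite, mul_zero]
  · rw [Finset.sum_comm, Finset.Nat.sum_antidiagonal_eq_sum_range_succ_mk, Finset.sum_range_succ]
    simp only [Nat.sub_self, if_true, mul_zero, add_zero]
    rw [Finset.mul_sum]
    refine Finset.sum_congr rfl fun l hl => ?_
    have hl' := Finset.mem_range.1 hl
    rw [if_neg (by omega : ¬ m - l = 0), ← hT σ R L f.support t.1 t.2 l m hl'.le]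
    unfold coneSum
    rw [Finset.sum_mul, Finset.mul_sum]
    refine Finset.sum_congr rfl fun u _ => ?_
    rw [Units.val_pow_eq_pow_val]
    split_ifs
    · ring
    · ring

end main

/-- MODULE ZFIN -/
theorem zfin (hS : StrataStmt) (h1 : P1Stmt) (h2 : P2Stmt) (h3 : P3Stmt) (hN : NdegStmt)
    (hY : YttStmt) (hT : TruncStmt) (hC : ConeStmt) : ZfinStmt := by
  classical
  intro k _ _ σ _ R _ L χ f hf hsi hnd
  have hRP : RP L (steps (slopes f.support ∪ {1})) (fun m =>
      ∑ t ∈ f.support.powerset ×ˢ (univ : Finset σ).powerset,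
        (Y1 χ f t * coneSum L f.support t.1 t.2 m m
        + Y0 χ f t * ∑ p ∈ Finset.HasAntidiagonal.antidiagonal m,
          coneSum L f.support t.1 t.2 p.1 p.1
            * (if p.2 = 0 then (0 : R) else ((L⁻¹ ^ p.2 : Rˣ) : R)))) := by
    refine RP.sum _ fun t _ => ?_
    have hc : RP L (steps (slopes f.support)) (fun l => coneSum L f.support t.1 t.2 l l) :=
      hC σ R L f.support t.1 t.2
    refine RP.add (RP.smul _ (hc.mono ?_)) (RP.smul _ (RP.cauchy hc RP.tail))
    intro p hp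
    exact ⟨hp.1, Or.inl hp.2⟩
  refine ⟨fun m => if m = 0 then 0 else
      ∑ t ∈ f.support.powerset ×ˢ (univ : Finset σ).powerset,
        (Y1 χ f t * coneSum L f.support t.1 t.2 m m
        + Y0 χ f t * ∑ p ∈ Finset.HasAntidiagonal.antidiagonal m,
          coneSum L f.support t.1 t.2 p.1 p.1
            * (if p.2 = 0 then (0 : R) else ((L⁻¹ ^ p.2 : Rˣ) : R))), ?_, ?_, ?_⟩
  · simp
  · refine RP.of_shift 1 ((hRP.shift 1).congr fun m => ?_)
    rw [if_neg (Nat.succ_ne_zero m)]
  · intro m hm hω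
    simp only [if_neg hm]
    rw [hS k σ R L χ f m hm _ hω, Finset.mul_sum]
    simp only [key χ f h1 h2 h3 hN hY hf hsi hnd m hm hω]
    rw [Finset.sum_comm]
    refine Finset.sum_congr rfl fun t _ => ?_
    exact (sum_gt χ f hT m t).symm

end Pool.Agent.Helper30_Simp.H15
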